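import Pool.Agent.K1H70.KR.Stm

/-! Piece KR-P7 (S_INV): infinitesimal invariance and degree of the Krylov determinant (helper65 for
helper70). -/

set_option autoImplicit false

namespace Pool.Agent.K1H70.KR

open MvPolynomial

namespace Inv

/-- Leibniz for a finite product -/
theorem der_prod {n A : Type} [DecidableEq n] [CommRing A] [Algebra ℂ A] (D : Derivation ℂ A A)
    (s : Finset n) (f : n → A) :
    D (∏ i ∈ s, f i) = ∑ a ∈ s, ∏ i ∈ s, if i = a then D (f i) else f i := by
  induction s using Finset.induction_on with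
  | empty => simp
  | insert b s hb ih =>
    rw [Finset.prod_insert hb, Derivation.leibniz, ih, Finset.sum_insert hb, Finset.prod_insert hb,
      if_pos rfl, smul_eq_mul, smul_eq_mul, add_comm]
    congr 1
    · rw [mul_comm]
      congr 1
      refine Finset.prod_congr rfl fun i hi => ?_
      rw [if_neg]
      rintro rfl
      exact hb hi
    · rw [Finset.mul_sum]
      refine Finset.sum_congr rfl fun a ha => ?_
      rw [Finset.prod_insert hb, if_neg]
      rintro rfl
      exact hb ha

/-- derivative of a determinant, by columns -/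
theorem der_det {n A : Type} [Fintype n] [DecidableEq n] [CommRing A] [Algebra ℂ A]
    (D : Derivation ℂ A A) (M : Matrix n n A) :
    D M.det = ∑ a, (M.updateCol a fun r => D (M r a)).det := by
  simp only [Matrix.det_apply]
  rw [map_sum, Finset.sum_comm]
  refine Finset.sum_congr rfl fun s _ => ?_
  rw [← Finset.smul_sum]
  have h : D (Equiv.Perm.sign s • ∏ i, M (s i) i) = Equiv.Perm.sign s • D (∏ i, M (s i) i) := by
    rcases Int.units_eq_one_or (Equiv.Perm.sign s) with h | h
    · rw [h, one_smul, one_smul]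
    · rw [h]
      simp only [Units.neg_smul, one_smul, map_neg]
  rw [h, der_prod]
  congr 1
  refine Finset.sum_congr rfl fun a _ => ?_
  refine Finset.prod_congr rfl fun i _ => ?_
  by_cases hi : i = a
  · subst hi
    rw [if_pos rfl, Matrix.updateCol_self]
  · rw [if_neg hi, Matrix.updateCol_ne hi]

/-- derivative of a determinant, by rows -/
theorem der_det_row {n A : Type} [Fintype n] [DecidableEq n] [CommRing A] [Algebra ℂ A]
    (D : Derivation ℂ A A) (M : Matrix n n A) :
    D M.det = ∑ a, (M.updateRow a fun r => D (M a r)).det := by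
  rw [← Matrix.det_transpose, der_det]
  refine Finset.sum_congr rfl fun a _ => ?_
  rw [← Matrix.det_transpose, Matrix.updateCol_transpose, Matrix.transpose_transpose]
  rfl

theorem dsum_apply {A κ : Type} [CommRing A] [Algebra ℂ A] (s : Finset κ) (D : κ → Derivation ℂ A A)
    (f : A) : (∑ i ∈ s, D i) f = ∑ i ∈ s, D i f := by
  classical
  induction s using Finset.induction_on with
  | empty => simp
  | insert b s hb ih => rw [Finset.sum_insert hb, Finset.sum_insert hb, Derivation.add_apply, ih]

variable {σ : Type} [Fintype σ]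

/-- the vector field as a derivation -/
noncomputable def linD (M : σ → σ → ℝ) : Derivation ℂ (MvPolynomial σ ℂ) (MvPolynomial σ ℂ) :=
  ∑ u, ∑ w, ((M u w : ℝ) : ℂ) • ((X u : MvPolynomial σ ℂ) • pderiv w)

theorem lin_apply (M : σ → σ → ℝ) (f : MvPolynomial σ ℂ) : lin M f = linD M f := by
  unfold lin linD
  rw [LinearMap.sum_apply, dsum_apply]
  refine Finset.sum_congr rfl fun u _ => ?_
  rw [LinearMap.sum_apply, dsum_apply]
  refine Finset.sum_congr rfl fun w _ => ?_
  rfl

theorem linD_X [DecidableEq σ] (M : σ → σ → ℝ) (t : σ) :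
    linD M (X t) = ∑ u, ((M u t : ℝ) : ℂ) • (X u : MvPolynomial σ ℂ) := by
  unfold linD
  rw [dsum_apply]
  refine Finset.sum_congr rfl fun u _ => ?_
  rw [dsum_apply, Finset.sum_eq_single t]
  · rw [Derivation.smul_apply, Derivation.smul_apply, pderiv_X_self, smul_eq_mul, mul_one]
  · intro w _ hw
    rw [Derivation.smul_apply, Derivation.smul_apply, pderiv_X_of_ne hw.symm, smul_zero, smul_zero]
  · intro h
    exact absurd (Finset.mem_univ t) h

/-- the Euler operator as a derivation -/
noncomputable def eulD {ι : Type} [Fintype ι] (v : ι → σ) :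
    Derivation ℂ (MvPolynomial σ ℂ) (MvPolynomial σ ℂ) :=
  ∑ a, (X (v a) : MvPolynomial σ ℂ) • pderiv (v a)

omit [Fintype σ] in
theorem eul_apply {ι : Type} [Fintype ι] (v : ι → σ) (f : MvPolynomial σ ℂ) :
    (∑ a, gen (Sum.inl (v a)) * gen (Sum.inr (v a)) : Module.End ℂ (MvPolynomial σ ℂ)) f =
      eulD v f := by
  unfold eulD
  rw [LinearMap.sum_apply, dsum_apply]
  refine Finset.sum_congr rfl fun u _ => ?_
  rfl

end Inv

open Pool.Agent.K1H70.KR.Inv

section

variable {m r : ℕ}

/-- the entries of the Krylov matrix -/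
theorem kmat_zero {R : Type} [CommRing R] (d : Fin r → ℕ) (x : Fin m × (Fin m ⊕ Fin r) → R)
    (l : Fin r) (i : Fin (d l)) (h : (i : ℕ) = 0) (a : Fin m) :
    kmat d x ⟨l, i⟩ a = x (a, Sum.inr l) := by
  unfold kmat
  rw [Matrix.of_apply]
  dsimp only
  rw [h, pow_zero, Matrix.one_mulVec]

/-- the vectors `A ^ i v_l` -/
noncomputable def kv {R : Type} [CommRing R] (x : Fin m × (Fin m ⊕ Fin r) → R) (l : Fin r) (i : ℕ) :
    Fin m → R :=
  ((Matrix.of fun a b : Fin m => x (a, Sum.inl b)) ^ i).mulVec fun a => x (a, Sum.inr l)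

theorem kv_zero {R : Type} [CommRing R] (x : Fin m × (Fin m ⊕ Fin r) → R) (l : Fin r) (a : Fin m) :
    kv x l 0 a = x (a, Sum.inr l) := by
  unfold kv
  rw [pow_zero, Matrix.one_mulVec]

theorem kv_succ {R : Type} [CommRing R] (x : Fin m × (Fin m ⊕ Fin r) → R) (l : Fin r) (i : ℕ)
    (a : Fin m) : kv x l (i + 1) a = ∑ b, x (a, Sum.inl b) * kv x l i b := by
  unfold kv
  rw [pow_succ', ← Matrix.mulVec_mulVec, Matrix.mulVec]
  rfl

theorem kmat_eq {R : Type} [CommRing R] (d : Fin r → ℕ) (x : Fin m × (Fin m ⊕ Fin r) → R)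
    (s : Σ j, Fin (d j)) (a : Fin m) : kmat d x s a = kv x s.1 s.2 a := rfl

theorem kv_map {R S : Type} [CommRing R] [CommRing S] (g : R →+* S)
    (x : Fin m × (Fin m ⊕ Fin r) → R) (l : Fin r) (i : ℕ) (a : Fin m) :
    g (kv x l i a) = kv (fun u => g (x u)) l i a := by
  induction i generalizing a with
  | zero => rw [kv_zero, kv_zero]
  | succ i ih =>
    rw [kv_succ, kv_succ, map_sum]
    refine Finset.sum_congr rfl fun b _ => ?_
    rw [map_mul, ih]

theorem kdet_map {R S : Type} [CommRing R] [CommRing S] (g : R →+* S) (d : Fin r → ℕ)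
    (e : (Σ j, Fin (d j)) ≃ Fin m) (x : Fin m × (Fin m ⊕ Fin r) → R) :
    g (kdet d e x) = kdet d e fun u => g (x u) := by
  unfold kdet
  rw [RingHom.map_det]
  congr 1
  ext a b
  rw [RingHom.mapMatrix_apply, Matrix.map_apply, Matrix.submatrix_apply, Matrix.submatrix_apply,
    kmat_eq, kmat_eq, kv_map]

theorem kry_map (d : Fin r → ℕ) (e : (Σ j, Fin (d j)) ≃ Fin m) :
    map (Int.castRingHom ℂ) (kry d e) =
      kdet d e (X : Fin m × (Fin m ⊕ Fin r) → MvPolynomial (Fin m × (Fin m ⊕ Fin r)) ℂ) := by
  unfold kry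
  rw [kdet_map]
  congr 1
  funext u
  rw [map_X]

theorem linD_inr (p q : Fin m) (a : Fin m) (l : Fin r) :
    linD (Mpq p q) (X (a, Sum.inr l) : MvPolynomial (Fin m × (Fin m ⊕ Fin r)) ℂ) =
      if a = p then X (q, Sum.inr l) else 0 := by
  classical
  rw [linD_X]
  rw [Finset.sum_eq_single (q, Sum.inr l)]
  · unfold Mpq
    by_cases h : a = p
    · simp [h]
    · simp [h]
  · rintro ⟨b, t⟩ _ hne
    have h0 : Mpq p q (b, t) (a, (Sum.inr l : Fin m ⊕ Fin r)) = 0 := by
      unfold Mpq
      rw [if_neg, if_neg, sub_zero]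
      · rintro ⟨_, _, h⟩
        exact absurd h (by simp)
      · rintro ⟨h1, _, h2⟩
        dsimp only at h1 h2
        exact hne (by rw [h1, h2])
    rw [h0, Complex.ofReal_zero, zero_smul]
  · intro h
    exact absurd (Finset.mem_univ _) h

theorem linD_inl (p q : Fin m) (a b : Fin m) :
    linD (Mpq p q) (X (a, Sum.inl b) : MvPolynomial (Fin m × (Fin m ⊕ Fin r)) ℂ) =
      (if a = p then X (q, Sum.inl b) else 0) - if b = q then X (a, Sum.inl p) else 0 := by
  classical
  rw [linD_X]
  have h1 : ∀ u : Fin m × (Fin m ⊕ Fin r),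
      ((Mpq p q u (a, Sum.inl b) : ℝ) : ℂ) • (X u : MvPolynomial (Fin m × (Fin m ⊕ Fin r)) ℂ) =
      (if u = (q, Sum.inl b) then (if a = p then X u else 0) else 0) -
        (if u = (a, Sum.inl p) then (if b = q then X u else 0) else 0) := by
    rintro ⟨c, t⟩
    unfold Mpq
    by_cases hc : c = q <;> by_cases ha : a = p <;> by_cases ht : t = Sum.inl b <;>
      by_cases hca : c = a <;> by_cases htp : t = Sum.inl p <;> by_cases hb : b = q <;>
      simp [hc, ha, ht, hca, htp, hb, sub_smul]
  rw [Finset.sum_congr rfl fun u _ => h1 u, Finset.sum_sub_distrib, Finset.sum_ite_eq',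
    Finset.sum_ite_eq', if_pos (Finset.mem_univ _), if_pos (Finset.mem_univ _)]

theorem linD_kv (p q : Fin m) (l : Fin r) (i : ℕ) (a : Fin m) :
    linD (Mpq p q) (kv (X : _ → MvPolynomial (Fin m × (Fin m ⊕ Fin r)) ℂ) l i a) =
      if a = p then kv (X : _ → MvPolynomial (Fin m × (Fin m ⊕ Fin r)) ℂ) l i q else 0 := by
  induction i generalizing a with
  | zero => rw [kv_zero, kv_zero, linD_inr]
  | succ i ih =>
    rw [kv_succ, kv_succ, map_sum]
    have h1 : ∀ b : Fin m, linD (Mpq p q) ((X (a, Sum.inl b) :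
        MvPolynomial (Fin m × (Fin m ⊕ Fin r)) ℂ) * kv X l i b) =
        (if a = p then X (q, Sum.inl b) * kv X l i b else 0) -
          (if b = q then X (a, Sum.inl p) * kv X l i b else 0) +
          if b = p then X (a, Sum.inl b) * kv X l i q else 0 := by
      intro b
      rw [Derivation.leibniz, ih, linD_inl, smul_eq_mul, smul_eq_mul]
      split_ifs <;> ring
    rw [Finset.sum_congr rfl fun b _ => h1 b, Finset.sum_add_distrib, Finset.sum_sub_distrib,
      Finset.sum_ite_eq', Finset.sum_ite_eq', if_pos (Finset.mem_univ _),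
      if_pos (Finset.mem_univ _), sub_add_cancel]
    by_cases ha : a = p
    · simp [ha]
    · simp [ha]

theorem eulD_kv (j l : Fin r) (i : ℕ) (a : Fin m) :
    eulD (fun a : Fin m => (a, (Sum.inr j : Fin m ⊕ Fin r)))
      (kv (X : _ → MvPolynomial (Fin m × (Fin m ⊕ Fin r)) ℂ) l i a) =
      if l = j then kv (X : _ → MvPolynomial (Fin m × (Fin m ⊕ Fin r)) ℂ) l i a else 0 := by
  classical
  have hX : ∀ u : Fin m × (Fin m ⊕ Fin r),
      eulD (fun a : Fin m => (a, (Sum.inr j : Fin m ⊕ Fin r))) (X u) =
        if u.2 = Sum.inr j then X u else 0 := by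
    rintro ⟨c, t⟩
    unfold eulD
    rw [dsum_apply]
    rw [Finset.sum_eq_single c]
    · rw [Derivation.smul_apply, pderiv_X]
      by_cases ht : t = Sum.inr j
      · subst ht
        simp
      · rw [if_neg ht, Pi.single_eq_of_ne, smul_zero]
        intro h
        exact ht (Prod.mk.inj h).2
    · intro b _ hb
      rw [Derivation.smul_apply, pderiv_X_of_ne, smul_zero]
      intro h
      exact hb (Prod.mk.inj h).1.symm
    · intro h
      exact absurd (Finset.mem_univ _) h
  induction i generalizing a with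
  | zero =>
    rw [kv_zero, hX]
    simp
  | succ i ih =>
    rw [kv_succ, map_sum]
    have h1 : ∀ b : Fin m, eulD (fun a : Fin m => (a, (Sum.inr j : Fin m ⊕ Fin r)))
        ((X (a, Sum.inl b) : MvPolynomial (Fin m × (Fin m ⊕ Fin r)) ℂ) * kv X l i b) =
        if l = j then X (a, Sum.inl b) * kv X l i b else 0 := by
      intro b
      rw [Derivation.leibniz, ih, hX, smul_eq_mul, smul_eq_mul]
      by_cases hl : l = j
      · simp [hl]
      · simp [hl]
    rw [Finset.sum_congr rfl fun b _ => h1 b]
    by_cases hl : l = j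
    · simp [hl]
    · simp [hl]

end

theorem t_INV : S_INV := by
  classical
  intro m r d e
  refine ⟨?_, ?_⟩
  · intro p q hpq
    rw [lin_apply, kry_map]
    unfold kdet
    rw [der_det]
    refine Finset.sum_eq_zero fun a _ => ?_
    by_cases ha : a = p
    · refine Matrix.det_zero_of_column_eq (i := a) (j := q) (by rw [ha]; exact hpq) fun k => ?_
      rw [Matrix.updateCol_self, Matrix.updateCol_ne (by rw [ha]; exact hpq.symm),
        Matrix.submatrix_apply, Matrix.submatrix_apply, kmat_eq, kmat_eq]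
      simp only [id]
      rw [linD_kv, if_pos ha]
    · refine Matrix.det_eq_zero_of_column_eq_zero a fun k => ?_
      rw [Matrix.updateCol_self, Matrix.submatrix_apply, kmat_eq]
      simp only [id]
      rw [linD_kv, if_neg ha]
  · intro j
    rw [eul_apply (fun a : Fin m => (a, (Sum.inr j : Fin m ⊕ Fin r))), kry_map]
    unfold kdet
    rw [der_det_row]
    have h1 : ∀ a : Fin m, (((kmat d (X : _ → MvPolynomial (Fin m × (Fin m ⊕ Fin r)) ℂ)).submatrix
        e.symm id).updateRow a fun b => eulD (fun a : Fin m => (a, (Sum.inr j : Fin m ⊕ Fin r)))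
          (((kmat d X).submatrix e.symm id) a b)).det =
        if (e.symm a).1 = j then ((kmat d X).submatrix e.symm id).det else 0 := by
      intro a
      by_cases ha : (e.symm a).1 = j
      · rw [if_pos ha]
        congr 1
        conv_rhs => rw [← Matrix.updateRow_eq_self ((kmat d X).submatrix e.symm id) a]
        congr 1
        funext b
        rw [Matrix.submatrix_apply, kmat_eq]
        rw [eulD_kv, if_pos ha]
      · rw [if_neg ha]
        refine Matrix.det_eq_zero_of_row_eq_zero a fun b => ?_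
        rw [Matrix.updateRow_self, Matrix.submatrix_apply, kmat_eq, eulD_kv, if_neg ha]
    rw [Finset.sum_congr rfl fun a _ => h1 a, ← Finset.sum_filter, Finset.sum_const]
    have hcard : (Finset.univ.filter fun a : Fin m => (e.symm a).1 = j).card = d j := by
      rw [← Fintype.card_fin (d j), ← Fintype.card_subtype]
      exact Fintype.card_congr ((e.symm.subtypeEquiv fun a => Iff.rfl).trans
        (Equiv.sigmaSubtype j))
    rw [hcard, ← Nat.cast_smul_eq_nsmul ℂ]

end Pool.Agent.K1H70.KR
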