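import Pool.Agent.K1H65.KR.Inv

/-! Piece KR-P2 (S_REYN): the Reynolds decomposition of differential operators (helper65 for
helper70). -/

set_option autoImplicit false

namespace Pool.Agent.K1H70.KR

open MvPolynomial

namespace Reyn

/-- linear algebra: `c = c₀ + ∑ A_i c_i` with `A_i c₀ = 0`, for real matrices `A_i` closed under
transposition -/
theorem la {n ι : Type} [Fintype n] [DecidableEq n] [Fintype ι] [DecidableEq ι]
    (A : ι → n → n → ℝ) (st : ι → ι) (hst : ∀ i b b', A (st i) b b' = A i b' b) (c : n → ℂ) :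
    ∃ (c0 : n → ℂ) (c' : ι → n → ℂ), (∀ b, c b = c0 b + ∑ i, ∑ b', (A i b b' : ℂ) * c' i b') ∧
      ∀ i b, ∑ b', (A i b b' : ℂ) * c0 b' = 0 := by
  let B : (ι → n → ℂ) →ₗ[ℂ] EuclideanSpace ℂ n :=
    { toFun := fun c' => WithLp.toLp 2 fun b => ∑ i, ∑ b', (A i b b' : ℂ) * c' i b'
      map_add' := fun x y => by
        ext b
        simp only [Pi.add_apply, mul_add, Finset.sum_add_distrib, PiLp.add_apply]
      map_smul' := fun r x => by
        ext b
        simp only [Pi.smul_apply, smul_eq_mul, PiLp.smul_apply, RingHom.id_apply, Finset.mul_sum]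
        refine Finset.sum_congr rfl fun i _ => Finset.sum_congr rfl fun b' _ => ?_
        ring }
  obtain ⟨y, hy, z, hz, hcz⟩ := (LinearMap.range B).exists_add_mem_mem_orthogonal (WithLp.toLp 2 c)
  obtain ⟨c', rfl⟩ := hy
  refine ⟨fun b => z b, c', ?_, ?_⟩
  · intro b
    have h := congrArg (fun v : EuclideanSpace ℂ n => v b) hcz
    simp only [PiLp.add_apply] at h
    rw [h, add_comm]
    rfl
  · intro i b
    have h := (Submodule.mem_orthogonal _ _).mp hz
      (B (Pi.single (st i) (Pi.single b 1))) (LinearMap.mem_range_self _ _)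
    rw [PiLp.inner_apply] at h
    rw [← h]
    refine Finset.sum_congr rfl fun b' _ => ?_
    have h1 : (B (Pi.single (st i) (Pi.single b 1))) b' = (A i b b' : ℂ) := by
      change ∑ j, ∑ b'', (A j b' b'' : ℂ) *
        (Pi.single (st i) (Pi.single b 1) : ι → n → ℂ) j b'' = _
      rw [Finset.sum_eq_single (st i), Finset.sum_eq_single b]
      · rw [Pi.single_eq_same, Pi.single_eq_same, mul_one, hst]
      · intro x _ hx
        rw [Pi.single_eq_same, Pi.single_eq_of_ne hx, mul_zero]
      · intro h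
        exact absurd (Finset.mem_univ _) h
      · intro j _ hj
        refine Finset.sum_eq_zero fun x _ => ?_
        rw [Pi.single_eq_of_ne hj, Pi.zero_apply, mul_zero]
      · intro h
        exact absurd (Finset.mem_univ _) h
    rw [h1, RCLike.inner_apply, Complex.conj_ofReal, mul_comm]

variable {σ : Type} [Fintype σ]

/-- the action on the letters -/
def Mhat (M : σ → σ → ℝ) : σ ⊕ σ → σ ⊕ σ → ℝ
  | Sum.inl u, Sum.inl t => M u t
  | Sum.inr w, Sum.inr t => -M t w
  | _, _ => 0

omit [Fintype σ] in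
theorem pderiv_comm' (t w : σ) (f : MvPolynomial σ ℂ) :
    pderiv t (pderiv w f) = pderiv w (pderiv t f) := by
  classical
  have h : ⁅(pderiv t : Derivation ℂ (MvPolynomial σ ℂ) (MvPolynomial σ ℂ)),
      (pderiv w : Derivation ℂ (MvPolynomial σ ℂ) (MvPolynomial σ ℂ))⁆ = 0 := by
    refine MvPolynomial.derivation_ext fun i => ?_
    rw [Derivation.commutator_apply, pderiv_X, pderiv_X]
    by_cases h1 : i = t <;> by_cases h2 : i = w <;> simp [Pi.single_apply, h1, h2]
    all_goals split_ifs <;> simp
  have h2 := congrArg (fun D : Derivation ℂ (MvPolynomial σ ℂ) (MvPolynomial σ ℂ) => D f) h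
  simp only [Derivation.commutator_apply, Derivation.zero_apply] at h2
  exact sub_eq_zero.mp h2

theorem comm_gen (M : σ → σ → ℝ) (t : σ ⊕ σ) :
    lin M * gen t - gen t * lin M = ∑ s, ((Mhat M s t : ℝ) : ℂ) • gen s := by
  classical
  rw [Fintype.sum_sum_type]
  rcases t with t | t
  · have h0 : ∑ s : σ, ((Mhat M (Sum.inr s) (Sum.inl t) : ℝ) : ℂ) • gen (Sum.inr s : σ ⊕ σ) = 0 :=
      Finset.sum_eq_zero fun s _ => by
        rw [show Mhat M (Sum.inr s) (Sum.inl t) = 0 from rfl, Complex.ofReal_zero, zero_smul]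
    rw [h0, add_zero]
    refine LinearMap.ext fun f => ?_
    rw [LinearMap.sub_apply, Module.End.mul_apply, Module.End.mul_apply, Inv.lin_apply,
      Inv.lin_apply, LinearMap.sum_apply]
    have h1 : (gen (Sum.inl t : σ ⊕ σ)) f = X t * f := rfl
    have h2 : (gen (Sum.inl t : σ ⊕ σ)) (Inv.linD M f) = X t * Inv.linD M f := rfl
    rw [h1, h2, Derivation.leibniz, Inv.linD_X, smul_eq_mul, smul_eq_mul, add_sub_cancel_left,
      Finset.mul_sum]
    refine Finset.sum_congr rfl fun u _ => ?_
    change f * (((M u t : ℝ) : ℂ) • X u) = ((M u t : ℝ) : ℂ) • (X u * f)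
    rw [mul_smul_comm, mul_comm]
  · have h0 : ∑ s : σ, ((Mhat M (Sum.inl s) (Sum.inr t) : ℝ) : ℂ) • gen (Sum.inl s : σ ⊕ σ) = 0 :=
      Finset.sum_eq_zero fun s _ => by
        rw [show Mhat M (Sum.inl s) (Sum.inr t) = 0 from rfl, Complex.ofReal_zero, zero_smul]
    rw [h0, zero_add]
    refine LinearMap.ext fun f => ?_
    rw [LinearMap.sub_apply, Module.End.mul_apply, Module.End.mul_apply, LinearMap.sum_apply]
    have hg : ∀ g : MvPolynomial σ ℂ, (gen (Sum.inr t : σ ⊕ σ)) g = pderiv t g := fun _ => rfl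
    rw [hg, hg]
    have hl : ∀ g : MvPolynomial σ ℂ, lin M g = ∑ u, ∑ w, ((M u w : ℝ) : ℂ) • (X u * pderiv w g) := by
      intro g
      unfold lin
      rw [LinearMap.sum_apply]
      refine Finset.sum_congr rfl fun u _ => ?_
      rw [LinearMap.sum_apply]
      rfl
    rw [hl, hl, map_sum, ← Finset.sum_sub_distrib]
    have h3 : ∀ u : σ, (∑ w, ((M u w : ℝ) : ℂ) • (X u * pderiv w (pderiv t f)) -
        pderiv t (∑ w, ((M u w : ℝ) : ℂ) • (X u * pderiv w f))) =
        ∑ w, (if u = t then (((Mhat M (Sum.inr w) (Sum.inr u) : ℝ) : ℂ) • pderiv w f) else 0) := by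
      intro u
      rw [map_sum, ← Finset.sum_sub_distrib]
      refine Finset.sum_congr rfl fun w _ => ?_
      rw [Derivation.map_smul, Derivation.leibniz, pderiv_comm' t w f, pderiv_X]
      by_cases hu : u = t
      · subst hu
        rw [if_pos rfl, Pi.single_eq_same, smul_eq_mul, smul_eq_mul, mul_one]
        change _ = ((-(M u w) : ℝ) : ℂ) • _
        push_cast
        rw [neg_smul, smul_add]
        ring
      · rw [if_neg hu, Pi.single_eq_of_ne hu, smul_zero, add_zero, smul_eq_mul, sub_self]
    rw [Finset.sum_congr rfl fun u _ => h3 u, Finset.sum_comm]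
    refine Finset.sum_congr rfl fun w _ => ?_
    rw [Finset.sum_ite_eq' Finset.univ t, if_pos (Finset.mem_univ _)]
    rfl

omit [Fintype σ] in
theorem Mhat_tr (M M' : σ → σ → ℝ) (h : ∀ u w, M' u w = M w u) (s t : σ ⊕ σ) :
    Mhat M' s t = Mhat M t s := by
  rcases s with s | s <;> rcases t with t | t
  · exact h s t
  · rfl
  · rfl
  · change -M' t s = -M s t
    rw [h]

/-- the finite system of words containing `w` -/
theorem sys {ι : Type} (M : ι → σ → σ → ℝ) (st : ι → ι) (hst : ∀ i u w, M (st i) u w = M i w u)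
    (w : List (σ ⊕ σ)) : ∃ (n : Type) (_ : Fintype n) (_ : DecidableEq n)
      (g : n → Module.End ℂ (MvPolynomial σ ℂ)) (T : ι → n → n → ℝ) (a : n), g a = wd w ∧
      (∀ b, ∃ v, g b = wd v) ∧ (∀ i b b', T (st i) b b' = T i b' b) ∧
      ∀ i b, lin (M i) * g b - g b * lin (M i) = ∑ b', ((T i b' b : ℝ) : ℂ) • g b' := by
  classical
  induction w with
  | nil =>
    refine ⟨Unit, inferInstance, inferInstance, fun _ => 1, fun _ _ _ => 0, (), rfl,
      fun _ => ⟨[], rfl⟩, fun _ _ _ => rfl, fun i b => ?_⟩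
    simp
  | cons t w ih =>
    obtain ⟨n, hn1, hn2, g, T, a, ha, hg, hT, hc⟩ := ih
    refine ⟨(σ ⊕ σ) × n, inferInstance, inferInstance, fun p => gen p.1 * g p.2,
      fun i p q => (if p.2 = q.2 then Mhat (M i) p.1 q.1 else 0) +
        if p.1 = q.1 then T i p.2 q.2 else 0, (t, a), ?_, ?_, ?_, ?_⟩
    · change gen t * g a = wd (t :: w)
      rw [ha]
      unfold wd
      rw [List.map_cons, List.prod_cons]
    · rintro ⟨s, b⟩
      obtain ⟨v, hv⟩ := hg b
      refine ⟨s :: v, ?_⟩
      dsimp only
      rw [hv]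
      unfold wd
      rw [List.map_cons, List.prod_cons]
    · rintro i ⟨s, b⟩ ⟨s', b'⟩
      dsimp only
      rw [Mhat_tr (M i) (M (st i)) (hst i), hT]
      congr 1
      · by_cases h : b = b'
        · rw [if_pos h, if_pos h.symm]
        · rw [if_neg h, if_neg (Ne.symm h)]
      · by_cases h : s = s'
        · rw [if_pos h, if_pos h.symm]
        · rw [if_neg h, if_neg (Ne.symm h)]
    · rintro i ⟨s, b⟩
      dsimp only
      have h1 : lin (M i) * (gen s * g b) - gen s * g b * lin (M i) =
          (lin (M i) * gen s - gen s * lin (M i)) * g b +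
            gen s * (lin (M i) * g b - g b * lin (M i)) := by
        rw [sub_mul, mul_sub]
        simp only [mul_assoc]
        abel
      rw [h1, comm_gen, hc, Finset.sum_mul, Finset.mul_sum, Fintype.sum_prod_type]
      simp only [Complex.ofReal_add, add_smul, Finset.sum_add_distrib]
      congr 1
      · refine Finset.sum_congr rfl fun s' _ => ?_
        rw [Finset.sum_eq_single b]
        · rw [if_pos rfl, smul_mul_assoc]
        · intro b' _ hb'
          rw [if_neg hb', Complex.ofReal_zero, zero_smul]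
        · intro h
          exact absurd (Finset.mem_univ _) h
      · rw [Finset.sum_eq_single s]
        · refine Finset.sum_congr rfl fun b' _ => ?_
          rw [if_pos rfl, mul_smul_comm]
        · intro s' _ hs'
          refine Finset.sum_eq_zero fun b' _ => ?_
          rw [if_neg hs', Complex.ofReal_zero, zero_smul]
        · intro h
          exact absurd (Finset.mem_univ _) h

end Reyn

open Pool.Agent.K1H70.KR.Reyn

theorem t_REYN : S_REYN := by
  classical
  intro σ ι _ _ _ M κ st hM hκ P hP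
  unfold W at hP
  induction hP using Submodule.span_induction with
  | mem P hP =>
    obtain ⟨w, rfl⟩ := hP
    obtain ⟨n, hn1, hn2, g, T, a, ha, hg, hT, hc⟩ := sys M st hM w
    obtain ⟨c0, c', h1, h2⟩ := la (fun i b b' => T i b b' - if b = b' then κ i else 0) st
      (fun i b b' => by
        rw [hT, hκ]
        congr 1
        by_cases h : b = b'
        · rw [if_pos h, if_pos h.symm]
        · rw [if_neg h, if_neg (Ne.symm h)]) (Pi.single a 1)
    have hgW : ∀ b, g b ∈ W σ := fun b => by
      obtain ⟨v, hv⟩ := hg b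
      rw [hv]
      exact Submodule.subset_span ⟨v, rfl⟩
    have hOp : ∀ c : n → ℂ, ∑ b, c b • g b ∈ W σ := fun c =>
      Submodule.sum_mem _ fun b _ => Submodule.smul_mem _ _ (hgW b)
    have hcm : ∀ (i : ι) (c : n → ℂ), lin (M i) * (∑ b, c b • g b) - (∑ b, c b • g b) * lin (M i) -
        ((κ i : ℝ) : ℂ) • ∑ b, c b • g b =
        ∑ b, (∑ b', ((T i b b' - if b = b' then κ i else 0 : ℝ) : ℂ) * c b') • g b := by
      intro i c
      have h3 : lin (M i) * (∑ b, c b • g b) - (∑ b, c b • g b) * lin (M i) =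
          ∑ b', ∑ b, (((T i b b' : ℝ) : ℂ) * c b') • g b := by
        rw [Finset.mul_sum, Finset.sum_mul, ← Finset.sum_sub_distrib]
        refine Finset.sum_congr rfl fun b _ => ?_
        rw [mul_smul_comm, smul_mul_assoc, show c b • (lin (M i) * g b) - c b • (g b * lin (M i)) =
          c b • (lin (M i) * g b - g b * lin (M i)) from (smul_sub _ _ _).symm, hc,
          Finset.smul_sum]
        refine Finset.sum_congr rfl fun b' _ => ?_
        rw [smul_smul, mul_comm]
      rw [h3, Finset.sum_comm, Finset.smul_sum, ← Finset.sum_sub_distrib]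
      refine Finset.sum_congr rfl fun b _ => ?_
      rw [← Finset.sum_smul, smul_smul, ← sub_smul]
      congr 1
      have h4 : ∀ b', ((T i b b' - if b = b' then κ i else 0 : ℝ) : ℂ) * c b' =
          ((T i b b' : ℝ) : ℂ) * c b' - if b = b' then ((κ i : ℝ) : ℂ) * c b' else 0 := by
        intro b'
        by_cases h : b = b'
        · rw [if_pos h, if_pos h, Complex.ofReal_sub, sub_mul]
        · rw [if_neg h, if_neg h, sub_zero, sub_zero]
      rw [Finset.sum_congr rfl fun b' _ => h4 b', Finset.sum_sub_distrib, Finset.sum_ite_eq,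
        if_pos (Finset.mem_univ _)]
    refine ⟨∑ b, c0 b • g b, fun i => ∑ b, c' i b • g b, hOp _, fun i => hOp _, ?_, ?_⟩
    · rw [Finset.sum_congr rfl fun i _ => hcm i (c' i), Finset.sum_comm, ← Finset.sum_add_distrib]
      have h5 : ∀ b, c0 b • g b + ∑ i, (∑ b', ((T i b b' - if b = b' then κ i else 0 : ℝ) : ℂ) *
          c' i b') • g b = (Pi.single a 1 : n → ℂ) b • g b := by
        intro b
        rw [← Finset.sum_smul, ← add_smul, ← h1]
      rw [Finset.sum_congr rfl fun b _ => h5 b, Finset.sum_eq_single a]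
      · rw [Pi.single_eq_same, one_smul, ha]
      · intro b _ hb
        rw [Pi.single_eq_of_ne hb, zero_smul]
      · intro h
        exact absurd (Finset.mem_univ _) h
    · intro i
      rw [← sub_eq_zero, hcm]
      refine Finset.sum_eq_zero fun b _ => ?_
      rw [h2, zero_smul]
  | zero =>
    refine ⟨0, fun _ => 0, Submodule.zero_mem _, fun _ => Submodule.zero_mem _, ?_, ?_⟩
    · simp
    · intro i
      simp
  | add P Q _ _ hP hQ =>
    obtain ⟨P0, R, h1, h2, h3, h4⟩ := hP
    obtain ⟨Q0, S, k1, k2, k3, k4⟩ := hQ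
    refine ⟨P0 + Q0, fun i => R i + S i, Submodule.add_mem _ h1 k1,
      fun i => Submodule.add_mem _ (h2 i) (k2 i), ?_, ?_⟩
    · rw [h3, k3]
      have h5 : ∀ i, lin (M i) * (R i + S i) - (R i + S i) * lin (M i) -
          ((κ i : ℝ) : ℂ) • (R i + S i) =
          (lin (M i) * R i - R i * lin (M i) - ((κ i : ℝ) : ℂ) • R i) +
          (lin (M i) * S i - S i * lin (M i) - ((κ i : ℝ) : ℂ) • S i) := by
        intro i
        rw [mul_add, add_mul, smul_add]
        abel
      rw [Finset.sum_congr rfl fun i _ => h5 i, Finset.sum_add_distrib]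
      abel
    · intro i
      rw [mul_add, add_mul, smul_add, ← h4, ← k4]
      abel
  | smul a P _ hP =>
    obtain ⟨P0, R, h1, h2, h3, h4⟩ := hP
    refine ⟨a • P0, fun i => a • R i, Submodule.smul_mem _ _ h1,
      fun i => Submodule.smul_mem _ _ (h2 i), ?_, ?_⟩
    · conv_lhs => rw [h3]
      rw [smul_add, Finset.smul_sum]
      congr 1
      refine Finset.sum_congr rfl fun i _ => ?_
      rw [smul_sub, smul_sub, mul_smul_comm, smul_mul_assoc, smul_comm a]
    · intro i
      rw [mul_smul_comm, smul_mul_assoc, show a • (lin (M i) * P0) - a • (P0 * lin (M i)) =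
          a • (lin (M i) * P0 - P0 * lin (M i)) from (smul_sub _ _ _).symm, h4, smul_comm]

end Pool.Agent.K1H70.KR
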